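import Pool.Agent.helper66.SL.SpecK

set_option autoImplicit false

namespace Pool.Agent.helper66.SL

open Pool.Agent.helper52.FC

theorem KLL_proof (hXUQ : XUQ) : KLL := by
  classical
  intro E _ L hG h hinj
  have hst : ∀ X ∈ L, ∃ T, IsTope L T ∧ Le X T ∧ ∀ S, IsTope L S → Le X S → h T ≤ h S := by
    intro X hX
    obtain ⟨T0, hT0⟩ := exists_tope hG.om
    have hne : ({T | IsTope L T ∧ Le X T} : Set (E → SignType)).Nonempty := by
      refine ⟨cmp X T0, tope_of (hG.om.comp X hX T0 hT0.1) ?_, le_cmp X T0⟩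
      intro e
      by_cases he : X e = 0
      · rw [cmp_pos he]
        exact tope_supp hG.om hG.simple hT0 e
      · rw [cmp_neg he]
        exact he
    obtain ⟨T, hT, hmin⟩ := Set.exists_min_image _ h (Set.toFinite _) hne
    exact ⟨T, hT.1, hT.2, fun S hS hXS => hmin S ⟨hS, hXS⟩⟩
  choose! τ hτ1 hτ2 hτ3 using hst
  have hkey := pairs_ncard L (fun T => {e | Wall L T e ∧ h T < h (fl T e)})
  unfold upw
  rw [← hkey]
  refine Set.ncard_le_ncard_of_injOn (fun X => (τ X, {e | Wall L (τ X) e ∧ X e = 0})) ?_ ?_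
    (Set.toFinite _)
  · intro X hX
    refine ⟨hτ1 X hX, ?_⟩
    rintro e ⟨he1, he2⟩
    refine ⟨he1, ?_⟩
    have h1 : Le X (fl (τ X) e) := by
      intro g
      by_cases hg : g = e
      · left
        rw [hg]
        exact he2
      · rw [fl_ne _ hg]
        exact hτ2 X hX g
    refine lt_of_le_of_ne (hτ3 X hX _ he1 h1) ?_
    intro heq
    have h2 := hinj _ _ (hτ1 X hX) he1 heq
    have h3 := congrFun h2 e
    rw [fl_same] at h3
    exact tope_supp hG.om hG.simple (hτ1 X hX) e (sneg h3 rfl)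
  · intro X hX Y hY hXY
    simp only [Prod.mk.injEq] at hXY
    obtain ⟨h1, h2⟩ := hXY
    refine hXUQ E L hG (τ X) (hτ1 X hX) X hX Y hY (hτ2 X hX) (h1 ▸ hτ2 Y hY) ?_
    intro e he
    constructor
    · intro h3
      have h4 : e ∈ {e | Wall L (τ X) e ∧ X e = 0} := ⟨he, h3⟩
      rw [h2] at h4
      exact h4.2
    · intro h3
      have h4 : e ∈ {e | Wall L (τ Y) e ∧ Y e = 0} := ⟨h1 ▸ he, h3⟩
      rw [← h2] at h4
      exact h4.2

end Pool.Agent.helper66.SL
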